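import Pool.Agent.Helper52.LC.All

set_option autoImplicit false

namespace Pool.Agent.Results.MP_6d1569_co.LooseCyclesPerfect

open Pool.Agent.Helper52.LC

/-- Q1 in full (affirmative): for every `t ≥ 4`, every 3-graph `E` on `{0, ..., n-1}` without a
copy of the 3-uniform linear cycle `C_t^3` has Lagrangian at most that of the complete 3-graph on
`2t-1` vertices, and equality holds only if `E` contains a complete 3-graph on `2t-1` vertices. -/
theorem result (t : ℕ) (ht : 4 ≤ t) (ht0 : 0 < t) (n : ℕ) (E : Finset (Finset (Fin n)))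
    (hE : IsThreeGraph E) (hfree : ¬ HasLooseCycle t ht0 E) :
    lag E ≤ lag (completeThree (Fin (2 * t - 1))) ∧
      (lag E = lag (completeThree (Fin (2 * t - 1))) →
        ∃ S : Finset (Fin n), S.card = 2 * t - 1 ∧
          ∀ e : Finset (Fin n), e ⊆ S → e.card = 3 → e ∈ E) :=
  Pool.Agent.Helper39.LC.main_of_core t ht0 (by omega) (core_all t ht) n E hE hfree

end Pool.Agent.Results.MP_6d1569_co.LooseCyclesPerfect
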